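import Pool.Agent.Lib_helper83.EF.Interface

/-!
# Block UB: finiteness and the classical upper bound
-/

set_option autoImplicit false

namespace Pool.Agent.Lib_helper63.EF

open Pool.Agent.Lib_helper83.EF

/-- one step: from a proper set of indices with product `P` one reaches a larger one with product
at most `t P ^ 2` -/
theorem step {t : ℕ} {x : Fin t → ℕ} (hx : x ∈ OSol t) {S : Finset (Fin t)} (hS : S.card < t) :
    ∃ i, i ∉ S ∧ x i ≤ t * ∏ j ∈ S, x j := by
  obtain ⟨hpos, hsum⟩ := hx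
  set P : ℕ := ∏ j ∈ S, x j with hP
  have hP0 : 0 < P := Finset.prod_pos fun j _ => hpos j
  have hPq : (0 : ℚ) < P := by exact_mod_cast hP0
  -- the residual
  have hcompl : (Sᶜ).Nonempty := by
    rw [← Finset.card_pos, Finset.card_compl, Fintype.card_fin]; omega
  set R : ℚ := ∑ i ∈ Sᶜ, (1 : ℚ) / (x i : ℚ) with hR
  have hR0 : 0 < R := Finset.sum_pos (fun i _ => by
    have : (0 : ℚ) < x i := by exact_mod_cast hpos i
    positivity) hcompl
  have hRS : R = 1 - ∑ i ∈ S, (1 : ℚ) / (x i : ℚ) := by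
    have h := Finset.sum_add_sum_compl S (fun i => (1 : ℚ) / (x i : ℚ))
    rw [hsum] at h
    linarith
  -- `P * R` is an integer
  have hint : ∃ z : ℤ, (P : ℚ) * R = z := by
    have h1 : ∀ i ∈ S, ∃ z : ℤ, (P : ℚ) * ((1 : ℚ) / (x i : ℚ)) = z := by
      intro i hi
      refine ⟨(∏ j ∈ S.erase i, x j : ℕ), ?_⟩
      have hxi : (x i : ℚ) ≠ 0 := by exact_mod_cast (hpos i).ne'
      rw [hP, ← Finset.mul_prod_erase S x hi]
      push_cast
      field_simp
    choose! f hf using h1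
    refine ⟨(P : ℤ) - ∑ i ∈ S, f i, ?_⟩
    rw [hRS, mul_sub, mul_one, Finset.mul_sum, Finset.sum_congr rfl hf]
    push_cast
    rfl
  obtain ⟨z, hz⟩ := hint
  have hz1 : (1 : ℚ) ≤ z := by
    have h0 : (0 : ℚ) < z := by rw [← hz]; positivity
    have h1 : (0 : ℤ) < z := by exact_mod_cast h0
    exact_mod_cast h1
  by_contra hcon
  push Not at hcon
  -- all remaining entries are large: contradiction
  have ht : 0 < t := by omega
  have htq : (0 : ℚ) < t := by exact_mod_cast ht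
  have h2 : ∀ i ∈ Sᶜ, (1 : ℚ) / (x i : ℚ) < 1 / (t * P) := by
    intro i hi
    have h3 := hcon i (by simpa using hi)
    have h4 : ((t * P : ℕ) : ℚ) < x i := by exact_mod_cast h3
    push_cast at h4
    exact one_div_lt_one_div_of_lt (by positivity) h4
  have h5 : R < (Sᶜ).card • ((1 : ℚ) / (t * P)) := by
    rw [← Finset.sum_const]
    exact Finset.sum_lt_sum_of_nonempty hcompl h2
  have h6 : ((Sᶜ).card : ℚ) ≤ t := by
    have : (Sᶜ).card ≤ t := by
      have := Finset.card_le_univ (Sᶜ)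
      simpa using this
    exact_mod_cast this
  rw [nsmul_eq_mul] at h5
  have h7 : (P : ℚ) * R < 1 := by
    calc (P : ℚ) * R < P * (((Sᶜ).card : ℚ) * (1 / (t * P))) := by
          exact mul_lt_mul_of_pos_left h5 hPq
      _ = ((Sᶜ).card : ℚ) / t := by field_simp
      _ ≤ 1 := by rw [div_le_one htq]; exact h6
  rw [hz] at h7
  linarith

theorem exists_prod_le {t : ℕ} {x : Fin t → ℕ} (hx : x ∈ OSol t) :
    ∀ k : ℕ, k ≤ t → ∃ S : Finset (Fin t), S.card = k ∧ ∏ j ∈ S, x j ≤ t ^ (2 ^ k - 1) := by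
  intro k
  induction k with
  | zero => intro _; exact ⟨∅, by simp, by simp⟩
  | succ k ih =>
    intro hk
    obtain ⟨S, hS, hP⟩ := ih (by omega)
    obtain ⟨i, hi, hxi⟩ := step hx (S := S) (by omega)
    refine ⟨insert i S, by rw [Finset.card_insert_of_notMem hi, hS], ?_⟩
    rw [Finset.prod_insert hi]
    calc x i * ∏ j ∈ S, x j ≤ (t * ∏ j ∈ S, x j) * ∏ j ∈ S, x j := Nat.mul_le_mul_right _ hxi
      _ ≤ (t * t ^ (2 ^ k - 1)) * t ^ (2 ^ k - 1) := by gcongr
      _ = t ^ (2 ^ (k + 1) - 1) := by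
        rw [← pow_succ', ← pow_add]
        congr 1
        have : 1 ≤ 2 ^ k := Nat.one_le_two_pow
        rw [pow_succ]
        omega

theorem entry_le {t : ℕ} {x : Fin t → ℕ} (hx : x ∈ OSol t) (i : Fin t) :
    x i ≤ t ^ (2 ^ t - 1) := by
  obtain ⟨S, hS, hP⟩ := exists_prod_le hx t le_rfl
  have hSu : S = Finset.univ := by
    rw [← Finset.card_eq_iff_eq_univ, hS, Fintype.card_fin]
  rw [hSu] at hP
  exact (Nat.le_of_dvd (Finset.prod_pos fun j _ => hx.1 j)
    (Finset.dvd_prod_of_mem x (Finset.mem_univ i))).trans hP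

theorem subset_box (t : ℕ) :
    OSol t ⊆ ↑(Fintype.piFinset fun _ : Fin t => Finset.Icc 1 (t ^ (2 ^ t - 1))) := by
  intro x hx
  simp only [Finset.mem_coe, Fintype.mem_piFinset, Finset.mem_Icc]
  exact fun i => ⟨hx.1 i, entry_le hx i⟩

theorem osol_finite (t : ℕ) : (OSol t).Finite := (Finset.finite_toSet _).subset (subset_box t)

theorem osol_card_le (t : ℕ) : (OSol t).ncard ≤ (t ^ (2 ^ t - 1)) ^ t := by
  refine (Set.ncard_le_ncard (subset_box t) (Finset.finite_toSet _)).trans ?_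
  rw [Set.ncard_coe_finset, Fintype.card_piFinset]
  simp

theorem eventually_bound : ∃ t₀ : ℕ, ∀ t ≥ t₀, (t : ℝ) ^ 2 * 2 ^ t ≤ Real.exp t := by
  have he : 1 < Real.exp 1 / 2 := by
    have := Real.exp_one_gt_d9
    linarith
  have h := tendsto_pow_const_div_const_pow_of_one_lt 2 he
  have h2 := (h.eventually (gt_mem_nhds (zero_lt_one))).exists_forall_of_atTop
  obtain ⟨t₀, ht₀⟩ := h2
  refine ⟨t₀, fun t ht => ?_⟩
  have h3 := ht₀ t ht
  have h4 : (0 : ℝ) < (Real.exp 1 / 2) ^ t := by positivity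
  rw [div_lt_one h4] at h3
  have h5 : (Real.exp 1 / 2) ^ t * 2 ^ t = Real.exp t := by
    rw [← mul_pow, div_mul_cancel₀ _ (two_ne_zero), ← Real.exp_nat_mul, mul_one]
  rw [← h5]
  exact mul_le_mul_of_nonneg_right h3.le (by positivity)

/-- Block UB. -/
theorem ub : UBStatement := by
  refine ⟨osol_finite, ?_⟩
  obtain ⟨t₀, ht₀⟩ := eventually_bound
  refine ⟨max t₀ 1, fun t ht => ?_⟩
  have h1 : 1 ≤ t := le_trans (le_max_right _ _) ht
  have h2 := ht₀ t (le_trans (le_max_left _ _) ht)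
  have ht0 : (0 : ℝ) < t := by exact_mod_cast h1
  have ht1 : (1 : ℝ) ≤ t := by exact_mod_cast h1
  have h3 : ((OSol t).ncard : ℝ) ≤ ((t : ℝ) ^ (2 ^ t - 1)) ^ t := by exact_mod_cast osol_card_le t
  refine h3.trans ?_
  rw [← pow_mul]
  have h4 : (t : ℝ) ^ ((2 ^ t - 1) * t) ≤ (t : ℝ) ^ (2 ^ t * t) :=
    pow_le_pow_right₀ ht1 (Nat.mul_le_mul_right _ (Nat.sub_le _ _))
  refine h4.trans ?_
  have h5 : (t : ℝ) ^ (2 ^ t * t) = Real.exp (((2 ^ t * t : ℕ) : ℝ) * Real.log t) := by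
    rw [Real.exp_nat_mul, Real.exp_log ht0]
  rw [h5]
  apply Real.exp_le_exp.2
  refine le_trans ?_ h2
  have h6 : Real.log t ≤ t := (Real.log_le_sub_one_of_pos ht0).trans (by linarith)
  push_cast
  calc (2 : ℝ) ^ t * t * Real.log t ≤ (2 : ℝ) ^ t * t * t := by gcongr
    _ = (t : ℝ) ^ 2 * 2 ^ t := by ring

end Pool.Agent.Lib_helper63.EF
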